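import Mathlib
import Pool.Agent.H.MP_073e7c_an.D

set_option autoImplicit false

namespace Pool.Agent.Results.MP_073e7c_an.Exists

open Pool.Agent.H.MP_073e7c_an

theorem result (d : ℕ) (hd : 3 ≤ d) : ∃ X : Set ((Fin d → ℤ) → (Fin d → ℤ)),
    X.Nonempty ∧ IsClosed X ∧ (∀ x ∈ X, ∀ u, (fun v => x (u + v)) ∈ X) ∧
    (∀ x ∈ X, ∀ v, (∃ i, x v = Pi.single i 1 ∨ x v = -Pi.single i 1) ∧ x (v + x v) = -x v) ∧
    ∃ k : ℕ, ∀ x ∈ X, ∀ y ∈ X, ∀ A B : Set (Fin d → ℤ), (∀ a ∈ A, ∀ b ∈ B, (k : ℝ) ≤ dist a b) →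
      ∃ z ∈ X, Set.EqOn z x A ∧ Set.EqOn z y B := by
  obtain ⟨m, rfl⟩ := Nat.exists_eq_add_of_le' hd
  let ι : Z3 →+ (Fin (m + 3) → ℤ) := AddMonoidHom.mk' (fun c => Pi.single 0 c.1 + Pi.single 1 c.2.1 + Pi.single 2 c.2.2)
    fun a b => by simp only [Prod.fst_add, Prod.snd_add, Pi.single_add]; abel
  let π : (Fin (m + 3) → ℤ) →+ Z3 := AddMonoidHom.mk' (fun v => (v 0, v 1, v 2)) fun _ _ => rfl
  have n1 : (0 : Fin (m + 3)) ≠ 1 := by simp
  have n2 : (0 : Fin (m + 3)) ≠ 2 := by simp [Fin.ext_iff, Nat.mod_eq_of_lt (show 2 < m + 3 by omega)]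
  have n3 : (1 : Fin (m + 3)) ≠ 2 := by simp [Fin.ext_iff, Nat.mod_eq_of_lt (show 2 < m + 3 by omega)]
  have e : ∀ c, π (ι c) = c := fun c => by simp [π, ι, n1, n2, n3, n1.symm, n2.symm, n3.symm]
  let X : Set ((Fin (m + 3) → ℤ) → (Fin (m + 3) → ℤ)) := {x | (∀ w, (fun c => π (x (w + ι c))) ∈ X3) ∧ ∀ v, ι (π (x v)) = x v}
  have b : ∀ Z : (Fin (m + 3) → ℤ) → Z3 → Z3, (∀ w, Z w ∈ X3) → (fun v => ι (Z (v - ι (π v)) (π v))) ∈ X := fun Z h =>
    ⟨fun w => by simpa [e, add_comm (π w), add_comm w] using X3_sh (h (w - ι (π w))) (π w), fun v => by rw [e]⟩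
  refine ⟨X, X3_ne.elim fun z h => ⟨_, b (fun _ => z) fun _ => h⟩, ?_, fun x h u => ⟨fun w => by simpa [add_assoc] using h.1 (u + w),
    fun v => h.2 _⟩, fun x h v => ?_, 10 ^ 39, fun x hx y hy A B h => ?_⟩
  · simp only [X, Set.ofPred_and, Set.ofPred_forall]
    exact (isClosed_iInter fun w => X3_cl.preimage (continuous_pi fun c => continuous_of_discreteTopology.comp (continuous_apply _))).inter
      (isClosed_iInter fun v => isClosed_eq ((continuous_of_discreteTopology (f := fun y => ι (π y))).comp (continuous_apply v))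
        (continuous_apply v))
  · obtain ⟨a, c⟩ := X3_dom (h.1 v) 0
    simp only [map_zero, add_zero, zero_add, h.2] at a c
    refine ⟨?_, by rw [← h.2 (v + x v), c, map_neg, h.2]⟩
    rw [← h.2 v]
    obtain a | a | ⟨⟨s, t⟩, f, a⟩ := a <;> rw [a]
    · exact ⟨0, .inl (by simp [ι])⟩
    · exact ⟨0, .inr (by simp [ι, Pi.single_neg])⟩
    · obtain ⟨rfl, rfl⟩ | ⟨rfl, rfl⟩ | ⟨rfl, rfl⟩ | ⟨rfl, rfl⟩ : s = 1 ∧ t = 0 ∨ s = -1 ∧ t = 0 ∨ s = 0 ∧ t = 1 ∨ s = 0 ∧ t = -1 := by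
        simp only [Adj, Prod.fst_zero, Prod.snd_zero] at f
        omega
      exacts [⟨1, .inl (by simp [ι])⟩, ⟨1, .inr (by simp [ι, Pi.single_neg])⟩, ⟨2, .inl (by simp [ι])⟩, ⟨2, .inr (by simp [ι, Pi.single_neg])⟩]
  · choose Z z1 z2 z3 using fun w => X3_si (hx.1 w) (hy.1 w) {c | w + ι c ∈ A} {c | w + ι c ∈ B} fun p s q t f => by
      refine absurd (h _ s _ t) (not_le.2 ((dist_pi_lt_iff (by positivity)).2 fun i => ?_))
      rw [Int.dist_eq']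
      norm_cast
      simp only [ι, AddMonoidHom.mk'_apply, Pi.add_apply, Pi.single_apply, abs_lt]
      unfold Near Nr at f
      split_ifs <;> omega
    exact ⟨_, b Z z1, fun v s => by simp only [z2 (v - ι (π v)) (π v) (by simpa using s), sub_add_cancel, hx.2],
      fun v s => by simp only [z3 (v - ι (π v)) (π v) (by simpa using s), sub_add_cancel, hy.2]⟩

end Pool.Agent.Results.MP_073e7c_an.Exists
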